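import Pool.Agent.K7.H19.PM.PPow3
import Pool.Agent.K7.H19.PM.FourP3
import Pool.Agent.K7.H19.PM.Gen
import Pool.Agent.K7.H19.PM.Even2

/-!
# Averaged mixing matrices of paths of rank one: existence

For the path on `n ≥ 3` vertices there is a probability density `f` such that the average of the mixing
matrices `M(t)` of the continuous-time quantum walk against `f` has rank one (so it is `J / n`), whenever
`n + 1` is coprime to `105` (and `n ≥ 500` or `n + 1` is odd), and also when `n + 1` is a prime power,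
twice a prime, or four times a prime `p ≥ 5`.
-/

namespace Pool.Agent.Results.MP_261efc_co.RankOneCoprime

open Pool.Agent.R667.MM MeasureTheory

/-- Let `n ≥ 3`. If `n + 1` is coprime to `105 = 3 · 5 · 7`, and `n ≥ 500` or `n + 1` is odd, or if `n + 1`
is a power of a prime, or twice a prime, or four times a prime `p ≥ 5`, then some probability density `f`
has an averaged mixing matrix of rank one on the path with `n` vertices. -/
theorem result (n : ℕ) (hn : 3 ≤ n)
    (h : ((n + 1).Coprime 105 ∧ (500 ≤ n ∨ Odd (n + 1))) ∨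
      (∃ p k : ℕ, p.Prime ∧ n + 1 = p ^ k) ∨ (∃ q : ℕ, q.Prime ∧ n + 1 = 2 * q) ∨
      ∃ p : ℕ, p.Prime ∧ 5 ≤ p ∧ n + 1 = 4 * p) :
    ∃ f : ℝ → ℝ, (∀ s, 0 ≤ f s) ∧ Integrable f ∧ ∫ s, f s = 1 ∧ (avgMixing n f).rank = 1 := by
  rcases h with ⟨hcop, hbig⟩ | ⟨p, k, hp, h⟩ | ⟨q, hq, h⟩ | ⟨p, hp, hp5, h⟩
  · have h : ∀ p : ℕ, p.Prime → p ∣ n + 1 → p = 2 ∨ 11 ≤ p := by
      intro p hp hd
      by_contra hcon
      push Not at hcon
      obtain ⟨h1, h2⟩ := hcon
      have h3 : p ∣ 105 := by
        interval_cases p <;> first | exact absurd rfl h1 | (exfalso; revert hp; decide) | decide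
      have h4 := Nat.dvd_gcd hd h3
      rw [hcop] at h4
      exact hp.one_lt.ne' (Nat.dvd_one.1 h4)
    by_cases hodd : Odd (n + 1)
    · have h' : ∀ p : ℕ, p.Prime → p ∣ n + 1 → 11 ≤ p := by
        intro p hp hd
        rcases h p hp hd with rfl | h1
        · exfalso
          rw [Nat.odd_iff] at hodd
          omega
        · exact h1
      have h1 : 11 ≤ (n + 1).minFac := h' _ (Nat.minFac_prime (by omega)) (Nat.minFac_dvd _)
      have h2 : (n + 1).minFac ≤ n + 1 := Nat.minFac_le (by omega)
      exact Pool.Agent.K7.H19.PM2.gen_case hodd (by omega) h'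
    · have hn500 : 500 ≤ n := hbig.resolve_right hodd
      obtain ⟨e, m', hm', hN⟩ := Nat.exists_eq_two_pow_mul_odd (n := n + 1) (by omega)
      have he : 1 ≤ e := by
        by_contra hcon
        have he0 : e = 0 := by omega
        rw [he0, pow_zero, one_mul] at hN
        exact hodd (by rw [hN]; exact hm')
      refine Pool.Agent.K7.H19.PM2.even_gen hn500 he hN hm' fun p hp hd => ?_
      rcases h p hp (by rw [hN]; exact Dvd.dvd.mul_left hd _) with rfl | h1
      · exfalso
        obtain ⟨a, ha⟩ := hm'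
        omega
      · exact h1
  · rcases hp.eq_two_or_odd' with h2 | h2
    · subst h2
      exact Pool.Agent.K7.H19.PM.free_case hn (Pool.Agent.K7.H19.PM.totient_two_pow h)
    · obtain rfl | rfl | ⟨e, rfl⟩ : k = 0 ∨ k = 1 ∨ ∃ e, k = e + 1 + 1 := by
        rcases k with _ | _ | e
        · exact Or.inl rfl
        · exact Or.inr (Or.inl rfl)
        · exact Or.inr (Or.inr ⟨e, rfl⟩)
      · rw [pow_zero] at h; omega
      · rw [pow_one] at h
        exact Pool.Agent.K7.H19.PM.free_case hn
          (Pool.Agent.K7.H19.PM.totient_prime (by rw [h]; exact hp) (by omega))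
      · exact Pool.Agent.K7.H19.PM.ppow_case hp h2 (by omega) h
  · exact Pool.Agent.K7.H19.PM.free_case hn (Pool.Agent.K7.H19.PM.totient_twice hq h)
  · exact Pool.Agent.K7.H19.PM.fourp_case hp hp5 h

end Pool.Agent.Results.MP_261efc_co.RankOneCoprime
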